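import Pool.Agent.Q225.GH.Stm

/-! # Job GH-NOCERT -/

set_option autoImplicit false

namespace Pool.Agent.Q210.GH

open Finset Pool.Agent.Q225.GH

section

variable {U : Type} (B : Base U) (β : U → U → ZMod 2) {W : Type} [Fintype W] [DecidableEq W]
  (F : SimpleGraph W)

theorem zmod2_cases (x : ZMod 2) : x = 0 ∨ x = 1 := by
  revert x; decide

theorem zmod2_self (x : ZMod 2) : x + x = 0 := by
  revert x; decide

theorem ev_add (u w : U) (s s' : B.I u → ZMod 2) : B.ev u w (s + s') = B.ev u w s + B.ev u w s' := by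
  unfold Base.ev
  rw [← Finset.sum_add_distrib]
  exact Finset.sum_congr rfl fun i _ => by rw [Pi.add_apply, mul_add]

theorem ev_smul (u w : U) (c : ZMod 2) (s : B.I u → ZMod 2) : B.ev u w (c • s) = c * B.ev u w s := by
  unfold Base.ev
  rw [Finset.mul_sum]
  exact Finset.sum_congr rfl fun i _ => by rw [Pi.smul_apply, smul_eq_mul]; ring

omit [DecidableEq W] in
open Classical in
theorem sw (g t' : W → W → ZMod 2) :
    ∑ p : W × W, (if F.Adj p.1 p.2 then g p.1 p.2 + g p.2 p.1 else 0) * t' p.1 p.2 =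
      ∑ a, ∑ b, (if F.Adj a b then t' a b + t' b a else 0) * g a b := by
  rw [Fintype.sum_prod_type]
  have e1 : ∀ a b : W, (if F.Adj a b then g a b + g b a else 0) * t' a b =
      (if F.Adj a b then g a b * t' a b else 0) + (if F.Adj a b then g b a * t' a b else 0) := by
    intro a b
    split_ifs <;> ring
  have e2 : ∀ a b : W, (if F.Adj a b then t' a b + t' b a else 0) * g a b =
      (if F.Adj a b then g a b * t' a b else 0) + (if F.Adj b a then g a b * t' b a else 0) := by
    intro a b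
    rw [F.adj_comm b a]
    split_ifs <;> ring
  simp only [e1, e2, Finset.sum_add_distrib]
  congr 1
  exact Finset.sum_comm

/-- a solution over `φ` -/
def Sol (φ : W → U) (s : (a : W) → B.I (φ a) → ZMod 2) : Prop :=
  ∀ a b, F.Adj a b → B.ev (φ a) (φ b) (s a) + B.ev (φ b) (φ a) (s b) = β (φ a) (φ b) + β (φ b) (φ a)

open Classical in
/-- the linear map of the equations -/
noncomputable def LL (φ : W → U) : ((a : W) → B.I (φ a) → ZMod 2) →ₗ[ZMod 2] (W × W → ZMod 2) where
  toFun s p := if F.Adj p.1 p.2 then B.ev (φ p.1) (φ p.2) (s p.1) + B.ev (φ p.2) (φ p.1) (s p.2) else 0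
  map_add' s s' := by
    funext p
    simp only [Pi.add_apply, ev_add]
    split_ifs
    · ring
    · ring
  map_smul' c s := by
    funext p
    simp only [Pi.smul_apply, ev_smul, RingHom.id_apply, smul_eq_mul]
    split_ifs
    · ring
    · ring

open Classical in
theorem sol_or_cert (φ : W → U) (hφ : ∀ a b, F.Adj a b → B.G.Adj (φ a) (φ b))
    (hno : ¬ ∃ t, Cert B β F φ t) : ∃ s, Sol B β F φ s := by
  let τ : W × W → ZMod 2 := fun p =>
    if F.Adj p.1 p.2 then β (φ p.1) (φ p.2) + β (φ p.2) (φ p.1) else 0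
  by_cases hτ : τ ∈ LinearMap.range (LL B F φ)
  · obtain ⟨s, hs⟩ := hτ
    refine ⟨s, fun a b hab => ?_⟩
    have h := congrFun hs (a, b)
    simp only [LL, LinearMap.coe_mk, AddHom.coe_mk, τ, if_pos hab] at h
    exact h
  · exfalso
    apply hno
    obtain ⟨f, hf1, hf2⟩ := Submodule.exists_le_ker_of_notMem hτ
    let t' : W → W → ZMod 2 := fun a b => f (Pi.single (a, b) 1)
    have hf : ∀ g : W × W → ZMod 2, f g = ∑ p : W × W, g p * t' p.1 p.2 := by
      intro g
      rw [LinearMap.pi_apply_eq_sum_univ f g]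
      refine Finset.sum_congr rfl fun p _ => ?_
      rw [smul_eq_mul]
      congr 2
      funext q
      rw [Pi.single_apply]
      by_cases h : p = q
      · rw [if_pos h, if_pos h.symm]
      · rw [if_neg h, if_neg (fun h' => h h'.symm)]
    refine ⟨fun a b => if F.Adj a b then t' a b + t' b a else 0, hφ, ?_, ?_, ?_, ?_⟩
    · intro a b
      simp only [F.adj_comm a b, add_comm]
    · intro a b h
      by_contra hc
      exact h (if_neg hc)
    · intro a i
      have h1 : f (LL B F φ (Pi.single a (Pi.single i 1))) = 0 := hf2 ⟨_, rfl⟩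
      rw [hf] at h1
      have h2 := sw F (fun c d => B.ev (φ c) (φ d)
        ((Pi.single a (Pi.single i 1) : (c : W) → B.I (φ c) → ZMod 2) c)) t'
      have h3 : ∑ p : W × W, (LL B F φ (Pi.single a (Pi.single i 1))) p * t' p.1 p.2 =
        ∑ p : W × W, (if F.Adj p.1 p.2 then B.ev (φ p.1) (φ p.2)
          ((Pi.single a (Pi.single i 1) : (c : W) → B.I (φ c) → ZMod 2) p.1) + B.ev (φ p.2) (φ p.1)
          ((Pi.single a (Pi.single i 1) : (c : W) → B.I (φ c) → ZMod 2) p.2) else 0) * t' p.1 p.2 := rfl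
      rw [h3, h2] at h1
      refine Eq.trans ?_ h1
      symm
      rw [Finset.sum_eq_single a]
      · refine Finset.sum_congr rfl fun b _ => ?_
        congr 1
        rw [Pi.single_eq_same]
        unfold Base.ev
        rw [Finset.sum_eq_single i]
        · rw [Pi.single_eq_same, mul_one]
        · intro j _ hj
          rw [Pi.single_eq_of_ne hj, mul_zero]
        · intro h; exact absurd (Finset.mem_univ _) h
      · intro c _ hc
        refine Finset.sum_eq_zero fun b _ => ?_
        rw [Pi.single_eq_of_ne hc]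
        have : B.ev (φ c) (φ b) 0 = 0 := by
          unfold Base.ev
          exact Finset.sum_eq_zero fun j _ => by rw [Pi.zero_apply, mul_zero]
        rw [this, mul_zero]
      · intro h; exact absurd (Finset.mem_univ _) h
    · have h1 : f τ = 1 := (zmod2_cases (f τ)).resolve_left hf1
      rw [hf] at h1
      exact (sw F (fun c d => β (φ c) (φ d)) t').symm.trans h1

open Classical in
/-- the chosen solution -/
noncomputable def s0 (φ : W → U) : (a : W) → B.I (φ a) → ZMod 2 :=
  if h : ∃ s, Sol B β F φ s then h.choose else 0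

/-- shift of a homomorphism -/
noncomputable def shift (β₁ β₂ : U → U → ZMod 2) (hs : ∀ φ : W → U, (∀ a b, F.Adj a b → B.G.Adj (φ a) (φ b)) →
    ∀ a b, F.Adj a b → B.ev (φ a) (φ b) (s0 B β F φ a) + B.ev (φ b) (φ a) (s0 B β F φ b) =
      (β₁ (φ a) (φ b) + β₁ (φ b) (φ a)) + (β₂ (φ a) (φ b) + β₂ (φ b) (φ a)))
    (h : F →g B.cover β₁) : F →g B.cover β₂ where
  toFun a := ⟨(h a).1, (h a).2 + s0 B β F (fun c => (h c).1) a⟩
  map_rel' := by
    intro a b hab
    have h1 : (B.cover β₁).Adj (h a) (h b) := h.map_rel hab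
    have hφ : ∀ a b, F.Adj a b → B.G.Adj (h a).1 (h b).1 := fun a b hab =>
      (show (B.cover β₁).Adj (h a) (h b) from h.map_rel hab).1
    refine ⟨h1.1, ?_⟩
    have h2 := hs (fun c => (h c).1) hφ a b hab
    show B.ev (h a).1 (h b).1 ((h a).2 + s0 B β F (fun c => (h c).1) a) +
      B.ev (h b).1 (h a).1 ((h b).2 + s0 B β F (fun c => (h c).1) b) =
      β₂ (h a).1 (h b).1 + β₂ (h b).1 (h a).1
    rw [ev_add, ev_add]
    have h3 : B.ev (h a).1 (h b).1 (h a).2 + B.ev (h b).1 (h a).1 (h b).2 =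
      β₁ (h a).1 (h b).1 + β₁ (h b).1 (h a).1 := h1.2
    have h4 : B.ev (h a).1 (h b).1 (s0 B β F (fun c => (h c).1) a) +
      B.ev (h b).1 (h a).1 (s0 B β F (fun c => (h c).1) b) =
      (β₁ (h a).1 (h b).1 + β₁ (h b).1 (h a).1) + (β₂ (h a).1 (h b).1 + β₂ (h b).1 (h a).1) := h2
    have h5 : ∀ p q r s c d : ZMod 2, p + q = c → r + s = c + d → (p + r) + (q + s) = d := by decide
    exact h5 _ _ _ _ _ _ h3 h4

end

theorem t_NOCERT : S_NOCERT := by
  intro U _ _ B β W _ _ F hno
  have hsol : ∀ φ : W → U, (∀ a b, F.Adj a b → B.G.Adj (φ a) (φ b)) → Sol B β F φ (s0 B β F φ) := by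
    intro φ hφ
    have h : ∃ s, Sol B β F φ s := sol_or_cert B β F φ hφ fun ⟨t, ht⟩ => hno ⟨φ, t, ht⟩
    unfold s0
    rw [dif_pos h]
    exact h.choose_spec
  have hs1 : ∀ φ : W → U, (∀ a b, F.Adj a b → B.G.Adj (φ a) (φ b)) →
      ∀ a b, F.Adj a b → B.ev (φ a) (φ b) (s0 B β F φ a) + B.ev (φ b) (φ a) (s0 B β F φ b) =
      (β (φ a) (φ b) + β (φ b) (φ a)) + ((0 : U → U → ZMod 2) (φ a) (φ b) + (0 : U → U → ZMod 2) (φ b) (φ a)) := by
    intro φ hφ a b hab
    rw [hsol φ hφ a b hab]
    simp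
  have hs2 : ∀ φ : W → U, (∀ a b, F.Adj a b → B.G.Adj (φ a) (φ b)) →
      ∀ a b, F.Adj a b → B.ev (φ a) (φ b) (s0 B β F φ a) + B.ev (φ b) (φ a) (s0 B β F φ b) =
      ((0 : U → U → ZMod 2) (φ a) (φ b) + (0 : U → U → ZMod 2) (φ b) (φ a)) + (β (φ a) (φ b) + β (φ b) (φ a)) := by
    intro φ hφ a b hab
    rw [hsol φ hφ a b hab]
    simp
  refine Nat.card_congr ⟨shift B β F β 0 hs1, shift B β F 0 β hs2, ?_, ?_⟩
  · intro h
    apply RelHom.ext
    intro a
    show (⟨(h a).1, ((h a).2 + s0 B β F (fun c => (h c).1) a) + s0 B β F (fun c => (h c).1) a⟩ :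
      Σ u : U, (B.I u → ZMod 2)) = h a
    have : ((h a).2 + s0 B β F (fun c => (h c).1) a) + s0 B β F (fun c => (h c).1) a = (h a).2 := by
      funext i
      rw [Pi.add_apply, Pi.add_apply, add_assoc, zmod2_self, add_zero]
    rw [this]
  · intro h
    apply RelHom.ext
    intro a
    show (⟨(h a).1, ((h a).2 + s0 B β F (fun c => (h c).1) a) + s0 B β F (fun c => (h c).1) a⟩ :
      Σ u : U, (B.I u → ZMod 2)) = h a
    have : ((h a).2 + s0 B β F (fun c => (h c).1) a) + s0 B β F (fun c => (h c).1) a = (h a).2 := by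
      funext i
      rw [Pi.add_apply, Pi.add_apply, add_assoc, zmod2_self, add_zero]
    rw [this]

end Pool.Agent.Q210.GH
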